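import Pool.Agent.H24.Spc6

set_option autoImplicit false

open Pool.Agent.H24.Spd

theorem Pool.Agent.Results.MP_a569f2_lc.Charac.result (n : ℕ) (σ : Type) :
    FSPDA n σ = {L | ∃ (τ : Type) (_ : Finite τ), ∃ K ∈ CF τ, ∃ R ∈ PRL (n + 1) τ,
      ∃ h : τ → List σ, L = (fun x => x.flatMap h) '' (K ∩ R)} ∧
    FSPDA n σ = {L | ∃ (τ : Type) (_ : Finite τ), ∃ K ∈ CF (Option τ),
      ∃ h : Option τ → List σ, L = (fun x => x.flatMap h) '' (K ∩ Blocks n τ)} :=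
  ⟨charac2 n σ, charac n σ⟩
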